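import Pool.Agent.Helper88.NW.CrxGoals

/-!
# Packet CRXA (helper88's split of CRX): the gaps with crossings
-/

set_option autoImplicit false

namespace Pool.Agent.Helper31.NW

open Pool.Agent.Helper52.Wq2 Pool.Agent.Helper61.NW Pool.Agent.Helper88.NW

universe u

section
variable {Γ : Type u} [Group Γ]

/-- A crossing between two lines. -/
def XX (S : Set Γ) (h : Γ → ℤ) (s : Γ) (H : ℕ) (u v : Γ ⧸ Subgroup.zpowers s) : Prop :=
  ∃ a b : Γ, (a : Γ ⧸ Subgroup.zpowers s) = u ∧ (b : Γ ⧸ Subgroup.zpowers s) = v ∧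
    h b = h a + H ∧ a⁻¹ * b ∈ S ∧ (a * s)⁻¹ * (b * s⁻¹) ∈ S

variable {S : Set Γ} {h : Γ → ℤ} {s : Γ} {H n m : ℕ}

theorem mk_mul_s (a : Γ) : ((a * s : Γ) : Γ ⧸ Subgroup.zpowers s) = a := by
  rw [QuotientGroup.eq, mul_inv_rev, inv_mul_cancel_right]
  exact inv_mem (Subgroup.mem_zpowers s)

theorem mk_mul_s_inv (a : Γ) : ((a * s⁻¹ : Γ) : Γ ⧸ Subgroup.zpowers s) = a := by
  rw [QuotientGroup.eq, mul_inv_rev, inv_mul_cancel_right, inv_inv]
  exact Subgroup.mem_zpowers s

theorem XX.symm (hT : Two S h s H n m) {u v : Γ ⧸ Subgroup.zpowers s} (hx : XX S h s H u v) :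
    XX S h s H v u := by
  obtain ⟨a, b, ha, hb, hh, h1, h2⟩ := hx
  refine ⟨b * s⁻¹, a * s, by rw [mk_mul_s_inv, hb], by rw [mk_mul_s, ha], ?_, ?_, ?_⟩
  · have e1 : h (b * s⁻¹ * s) = h (b * s⁻¹) + h s := hT.hom _ _
    have e2 := hT.hom a s
    have e3 := hT.Hs
    rw [inv_mul_cancel_right] at e1
    linarith
  · have := hT.gen.2.1 _ h2
    rwa [mul_inv_rev, inv_inv] at this
  · have := hT.gen.2.1 _ h1
    rw [mul_inv_rev, inv_inv] at this
    rw [inv_mul_cancel_right, mul_inv_cancel_right]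
    exact this

theorem XX.smul (hT : Two S h s H n m) {u v : Γ ⧸ Subgroup.zpowers s} (hx : XX S h s H u v)
    (g : Γ) : XX S h s H (g • u) (g • v) := by
  obtain ⟨a, b, ha, hb, hh, h1, h2⟩ := hx
  refine ⟨g * a, g * b, by rw [← ha]; rfl, by rw [← hb]; rfl, ?_, ?_, ?_⟩
  · rw [hT.hom, hT.hom, hh, add_assoc]
  · have : (g * a)⁻¹ * (g * b) = a⁻¹ * b := by group
    rw [this]
    exact h1
  · have : (g * a * s)⁻¹ * (g * b * s⁻¹) = (a * s)⁻¹ * (b * s⁻¹) := by group
    rw [this]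
    exact h2

theorem XX.nb {u v : Γ ⧸ Subgroup.zpowers s}
    (e : (Γ ⧸ Subgroup.zpowers s) ≃ ZMod n) (he : IsCyc S s n e) (hx : XX S h s H u v)
    (huv : u ≠ v) : e v = e u + 1 ∨ e u = e v + 1 := by
  refine (he u v).1 ?_
  obtain ⟨a, b, ha, hb, hh, h1, h2⟩ := hx
  unfold Ln
  rw [SimpleGraph.fromRel_adj]
  exact ⟨huv, Or.inl ⟨a, a⁻¹ * b, h1, ha, by rw [mul_inv_cancel_left, hb]⟩⟩

theorem crs_iff (e : (Γ ⧸ Subgroup.zpowers s) ≃ ZMod n) (j : ZMod n) :
    Crs S h s H n e j ↔ XX S h s H (e.symm j) (e.symm (j + 1)) := by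
  unfold Crs XX
  constructor
  · rintro ⟨a, b, ha, hb, hr⟩
    exact ⟨a, b, by rw [← ha, e.symm_apply_apply], by rw [← hb, e.symm_apply_apply], hr⟩
  · rintro ⟨a, b, ha, hb, hr⟩
    exact ⟨a, b, by rw [ha, e.apply_symm_apply], by rw [hb, e.apply_symm_apply], hr⟩

theorem one_ne (hn : 3 ≤ n) : (1 : ZMod n) ≠ 0 := by
  intro h1
  have h2 : ((1 : ℕ) : ZMod n) = 0 := by rw [Nat.cast_one]; exact h1
  rw [ZMod.natCast_eq_zero_iff] at h2
  have := Nat.le_of_dvd one_pos h2
  omega

theorem two_ne (hn : 3 ≤ n) : (1 : ZMod n) + 1 ≠ 0 := by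
  intro h1
  have h2 : ((2 : ℕ) : ZMod n) = 0 := by
    rw [Nat.cast_two, ← one_add_one_eq_two]
    exact h1
  rw [ZMod.natCast_eq_zero_iff] at h2
  have := Nat.le_of_dvd two_pos h2
  omega

theorem crs_star (hT : Two S h s H n m) (hn : 3 ≤ n) (e : (Γ ⧸ Subgroup.zpowers s) ≃ ZMod n)
    (he : IsCyc S s n e) (j₀ : ZMod n) (hj : Crs S h s H n e j₀) (i : ZMod n) :
    Crs S h s H n e i ∨ Crs S h s H n e (i - 1) := by
  obtain ⟨g, hg⟩ := MulAction.exists_smul_eq Γ (e.symm j₀) (e.symm i)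
  have hx := ((crs_iff e j₀).1 hj).smul hT g
  have hne : g • e.symm j₀ ≠ g • e.symm (j₀ + 1) := by
    intro heq
    have h1 := e.symm.injective (smul_left_cancel g heq)
    have : (1 : ZMod n) = 0 := by
      have h2 : j₀ + 1 = j₀ + 0 := by rw [add_zero]; exact h1.symm
      exact add_left_cancel h2
    exact one_ne hn this
  have hnb := hx.nb e he hne
  rw [hg, e.apply_symm_apply] at hnb
  rw [hg] at hx
  rcases hnb with h1 | h1
  · left
    rw [crs_iff, ← h1, e.symm_apply_apply]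
    exact hx
  · right
    rw [crs_iff, sub_add_cancel]
    have h2 : i - 1 = e (g • e.symm (j₀ + 1)) := by rw [h1, add_sub_cancel_right]
    rw [h2, e.symm_apply_apply]
    exact hx.symm hT

theorem crs_all (hT : Two S h s H n m) (hn : 3 ≤ n) (e : (Γ ⧸ Subgroup.zpowers s) ≃ ZMod n)
    (he : IsCyc S s n e) (j : ZMod n) (hj : Crs S h s H n e j) (hj' : Crs S h s H n e (j - 1))
    (i : ZMod n) : Crs S h s H n e i := by
  obtain ⟨g, hg⟩ := MulAction.exists_smul_eq Γ (e.symm j) (e.symm i)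
  have hx := ((crs_iff e j).1 hj).smul hT g
  have hx' : XX S h s H (g • e.symm j) (g • e.symm (j - 1)) := by
    have h1 := (crs_iff e (j - 1)).1 hj'
    rw [sub_add_cancel] at h1
    exact (h1.symm hT).smul hT g
  have hne : g • e.symm j ≠ g • e.symm (j + 1) := by
    intro heq
    have h1 := e.symm.injective (smul_left_cancel g heq)
    have : (1 : ZMod n) = 0 := by
      have h2 : j + 1 = j + 0 := by rw [add_zero]; exact h1.symm
      exact add_left_cancel h2
    exact one_ne hn this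
  have hne' : g • e.symm j ≠ g • e.symm (j - 1) := by
    intro heq
    have h1 := e.symm.injective (smul_left_cancel g heq)
    have h2 : j - 1 + 1 = j - 1 := by rw [sub_add_cancel]; exact h1
    have : (1 : ZMod n) = 0 := by
      have h3 : j - 1 + 1 = j - 1 + 0 := by rw [add_zero]; exact h2
      exact add_left_cancel h3
    exact one_ne hn this
  have hne2 : e (g • e.symm (j + 1)) ≠ e (g • e.symm (j - 1)) := by
    intro heq
    have h1 := e.symm.injective (smul_left_cancel g (e.injective heq))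
    have h2 : j - 1 + (1 + 1) = j - 1 + 0 := by
      rw [add_zero, ← add_assoc, sub_add_cancel]
      exact h1
    exact two_ne hn (add_left_cancel h2)
  have hnb := hx.nb e he hne
  have hnb' := hx'.nb e he hne'
  rw [hg, e.apply_symm_apply] at hnb hnb'
  rw [hg] at hx hx'
  rcases hnb with h1 | h1
  · rw [crs_iff, ← h1, e.symm_apply_apply]
    exact hx
  · rcases hnb' with h2 | h2
    · rw [crs_iff, ← h2, e.symm_apply_apply]
      exact hx'
    · exact absurd (add_right_cancel (h1.symm.trans h2)) hne2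

theorem crxA : CrxA.{u} := by
  intro Γ _ S h s H n m hT hn e he ⟨j₀, hj₀⟩
  by_cases hall : ∀ j, Crs S h s H n e j
  · exact ⟨0, fun j _ => hall _⟩
  · push Not at hall
    obtain ⟨k, hk⟩ := hall
    refine ⟨k + 1, fun j _ => ?_⟩
    induction j with
    | zero =>
      rcases crs_star hT hn e he j₀ hj₀ (k + 1) with h1 | h1
      · simpa using h1
      · rw [add_sub_cancel_right] at h1
        exact absurd h1 hk
    | succ j ih =>
      have ih' := ih (by omega)
      rcases crs_star hT hn e he j₀ hj₀ (k + 1 + ((2 * (j + 1) : ℕ) : ZMod n)) with h1 | h1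
      · exact h1
      · exfalso
        have e1 : k + 1 + ((2 * (j + 1) : ℕ) : ZMod n) - 1 - 1 = k + 1 + ((2 * j : ℕ) : ZMod n) := by
          push_cast
          ring
        refine hk (crs_all hT hn e he _ h1 ?_ k)
        rw [e1]
        exact ih'

end

end Pool.Agent.Helper31.NW
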