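import Pool.Agent.Helper61.NW.Goals2

/-!
# Packet NW-LNC: line systems whose lines form a cycle without crossings
-/

set_option autoImplicit false

namespace Pool.Agent.Helper31.NWL

open Pool.Agent.Helper52.Wq2 Pool.Agent.Helper61.NW

/-- The edges of the gaps. -/
def EL {n : ℕ} (G : SimpleGraph (ℤ × Fin n)) (e : Fin n ≃ ZMod n) (j : ZMod n) (a b : ℤ) : Prop :=
  ∃ u v : Fin n, e u = j ∧ e v = j + 1 ∧ G.Adj (a, u) (b, v)

theorem lnc (h1 : CylStmt) : LncStmt := by
  intro n m G hL hn e he hc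
  obtain ⟨M₀, hM⟩ := h1 n hn 1 (EL G e)
    (by
      rintro j a b ⟨u, v, -, -, hG⟩
      exact hL.near _ _ _ _ hG)
    (by
      rintro j a b a' b' ⟨u, v, hu, hv, hG⟩ ⟨u', v', hu', hv', hG'⟩ haa
      obtain rfl : u = u' := e.injective (hu.trans hu'.symm)
      obtain rfl : v = v' := e.injective (hv.trans hv'.symm)
      by_contra hbb
      have n1 := abs_le.1 (hL.near _ _ _ _ hG)
      have n2 := abs_le.1 (hL.near _ _ _ _ hG')
      have e1 : a' = a + 1 := by omega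
      have e2 : b' = a := by omega
      have e3 : b = a + 1 := by omega
      subst e1 e2 e3
      exact hc j ⟨_, u, v, hu, hv, hG, hG'⟩)
  refine ⟨M₀, fun M hMM => Mn.trans ?_ (hM M hMM)⟩
  have hinj : Function.Injective (fun x : ℤ × Fin n => (x.1, e x.2)) := by
    rintro ⟨a, u⟩ ⟨b, v⟩ hab
    have p1 : a = b := (Prod.ext_iff.1 hab).1
    have p2 : e u = e v := (Prod.ext_iff.1 hab).2
    rw [p1, e.injective p2]
  refine Mn.of_inj (fun x : ℤ × Fin n => (x.1, e x.2)) hinj ?_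
  rintro ⟨a, u⟩ ⟨b, v⟩ huv
  rw [SimpleGraph.fromRel_adj]
  refine ⟨fun heq => huv.ne (hinj heq), ?_⟩
  have hnear := abs_le.1 (hL.near _ _ _ _ huv)
  by_cases hl : u = v
  · subst hl
    have hab : a ≠ b := fun h => huv.ne (by rw [h])
    have hcase : b = a + 1 ∨ a = b + 1 := by omega
    rcases hcase with h2 | h2
    · exact Or.inl (Or.inl ⟨rfl, h2⟩)
    · exact Or.inr (Or.inl ⟨rfl, h2⟩)
  · have hadj : (Lg G).Adj u v := by
      unfold Lg
      rw [SimpleGraph.fromRel_adj]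
      exact ⟨hl, Or.inl ⟨a, b, huv⟩⟩
    rcases (he _ _).1 hadj with h3 | h3
    · exact Or.inl (Or.inr ⟨h3, u, v, rfl, h3, huv⟩)
    · exact Or.inr (Or.inr ⟨h3, v, u, rfl, h3, huv.symm⟩)

end Pool.Agent.Helper31.NWL
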