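import Pool.Agent.Helper61.NW.Goals

/-!
# Packet NW-NCR: lines forming a cycle without crossings
-/

set_option autoImplicit false

namespace Pool.Agent.Helper31.NW

open Pool.Agent.Helper52.Wq2 Pool.Agent.Helper61.NW

universe u

section
variable {Γ : Type u} [Group Γ] {S : Set Γ} {h : Γ → ℤ} {s : Γ} {H n m : ℕ}

theorem h_one (hT : Two S h s H n m) : h 1 = 0 := by
  have := hT.hom 1 1
  rw [mul_one] at this
  omega

theorem h_inv (hT : Two S h s H n m) (g : Γ) : h g⁻¹ = - h g := by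
  have := hT.hom g g⁻¹
  rw [mul_inv_cancel, h_one hT] at this
  omega

theorem h_zpow (hT : Two S h s H n m) (k : ℤ) : h (s ^ k) = k * H := by
  induction k using Int.induction_on with
  | zero => rw [zpow_zero, h_one hT]; ring
  | succ k ih =>
    rw [zpow_add_one, hT.hom, ih, hT.Hs]
    ring
  | pred k ih =>
    rw [zpow_sub_one, hT.hom, ih, h_inv hT, hT.Hs]
    ring

/-- The position on the line. -/
def pos (h : Γ → ℤ) (H : ℕ) (g : Γ) : ℤ := h g / (H : ℤ)

theorem pos_mul (hT : Two S h s H n m) (g : Γ) (k : ℤ) : pos h H (g * s ^ k) = pos h H g + k := by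
  have hH : (H : ℤ) ≠ 0 := by
    have := hT.Hpos
    omega
  unfold pos
  rw [hT.hom, h_zpow hT, Int.add_mul_ediv_right _ _ hH]

theorem pos_adj (hT : Two S h s H n m) {u v : Γ} (hS : u⁻¹ * v ∈ S) :
    |pos h H u - pos h H v| ≤ 1 := by
  have hH : (0 : ℤ) < H := by
    have := hT.Hpos
    omega
  have h1 := hT.max _ hS
  have h2 : h v = h u + h (u⁻¹ * v) := by
    rw [← hT.hom, mul_inv_cancel_left]
  rw [abs_le] at h1
  have h3 : h v / (H : ℤ) ≤ (h u + 1 * H) / H := Int.ediv_le_ediv hH (by linarith [h1.2])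
  have h4 : h u / (H : ℤ) ≤ (h v + 1 * H) / H := Int.ediv_le_ediv hH (by linarith [h1.1])
  rw [Int.add_mul_ediv_right _ _ hH.ne'] at h3 h4
  unfold pos
  rw [abs_le]
  constructor <;> linarith

/-- The edges of the gaps. -/
def Ed (S : Set Γ) (h : Γ → ℤ) (s : Γ) (H n : ℕ) (e : (Γ ⧸ Subgroup.zpowers s) ≃ ZMod n)
    (j : ZMod n) (a b : ℤ) : Prop :=
  ∃ u v : Γ, e (u : Γ ⧸ Subgroup.zpowers s) = j ∧ e (v : Γ ⧸ Subgroup.zpowers s) = j + 1 ∧
    pos h H u = a ∧ pos h H v = b ∧ u⁻¹ * v ∈ S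

theorem coset_zpow {u v : Γ} (huv : (u : Γ ⧸ Subgroup.zpowers s) = v) :
    ∃ k : ℤ, v = u * s ^ k := by
  rw [QuotientGroup.eq] at huv
  obtain ⟨k, hk⟩ := Subgroup.mem_zpowers_iff.1 huv
  exact ⟨k, by rw [hk, mul_inv_cancel_left]⟩

theorem same_line (hT : Two S h s H n m) {u v : Γ}
    (huv : (u : Γ ⧸ Subgroup.zpowers s) = v) : v = u * s ^ (pos h H v - pos h H u) := by
  obtain ⟨k, hk⟩ := coset_zpow huv
  have : pos h H v = pos h H u + k := by rw [hk, pos_mul hT]
  rw [this, add_sub_cancel_left]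
  exact hk

theorem noncross (hT : Two S h s H n m) (e : (Γ ⧸ Subgroup.zpowers s) ≃ ZMod n)
    (hc : ∀ j, ¬ Crs S h s H n e j) (j : ZMod n) (a b a' b' : ℤ)
    (h1 : Ed S h s H n e j a b) (h2 : Ed S h s H n e j a' b') (haa : a < a') : b ≤ b' := by
  obtain ⟨u, v, hu, hv, hua, hvb, hS⟩ := h1
  obtain ⟨u', v', hu', hv', hua', hvb', hS'⟩ := h2
  by_contra hbb
  have hbb' : b' < b := not_le.1 hbb
  have hH : (0 : ℤ) < H := by
    have := hT.Hpos
    omega
  have e1 := same_line hT (e.injective (hu.trans hu'.symm))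
  have e2 := same_line hT (e.injective (hv.trans hv'.symm))
  rw [hua, hua'] at e1
  rw [hvb, hvb'] at e2
  have m1 := hT.max _ hS
  have m2 := hT.max _ hS'
  rw [hT.hom, h_inv hT] at m1 m2
  rw [e1, e2, hT.hom, hT.hom, h_zpow hT, h_zpow hT] at m2
  rw [abs_le] at m1 m2
  have hi : 1 ≤ a' - a := by omega
  have hk : 1 ≤ b - b' := by omega
  have hsum : (a' - a) + (b - b') ≤ 2 := by
    have : ((a' - a) + (b - b')) * (H : ℤ) ≤ 2 * H := by
      nlinarith [m1.2, m2.1]
    exact le_of_mul_le_mul_right this hH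
  have ea : a' - a = 1 := by omega
  have eb : b' - b = -1 := by omega
  rw [ea] at m2 e1
  rw [eb] at m2 e2
  rw [zpow_one] at e1
  rw [zpow_neg_one] at e2
  refine hc j ⟨u, v, hu, hv, ?_, hS, ?_⟩
  · have := m2.1
    have := m1.2
    linarith
  · rw [← e1, ← e2]
    exact hS'

theorem ncr (h1 : CylStmt) : NcrStmt.{u} := by
  intro Γ _ S h s H n m hT hn e he hc
  obtain ⟨M₀, hM⟩ := h1 n hn 1 (Ed S h s H n e)
    (by
      rintro j a b ⟨u, v, -, -, rfl, rfl, hS⟩
      exact pos_adj hT hS)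
    (fun j a b a' b' => noncross hT e hc j a b a' b')
  refine ⟨M₀, fun M hMM => Mn.trans ?_ (hM M hMM)⟩
  refine Mn.of_inj (fun g : Γ => (pos h H g, e (g : Γ ⧸ Subgroup.zpowers s))) ?_ ?_
  · intro u v huv
    have p1 : pos h H u = pos h H v := (Prod.ext_iff.1 huv).1
    have p2 : e (u : Γ ⧸ Subgroup.zpowers s) = e (v : Γ ⧸ Subgroup.zpowers s) :=
      (Prod.ext_iff.1 huv).2
    have := same_line hT (e.injective p2)
    rw [p1, sub_self, zpow_zero, mul_one] at this
    exact this.symm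
  · intro u v huv
    have hH : (0 : ℤ) < H := by
      have := hT.Hpos
      omega
    have hne : (fun g : Γ => (pos h H g, e (g : Γ ⧸ Subgroup.zpowers s))) u ≠
        (fun g : Γ => (pos h H g, e (g : Γ ⧸ Subgroup.zpowers s))) v := by
      intro heq
      have p1 : pos h H u = pos h H v := (Prod.ext_iff.1 heq).1
      have p2 : e (u : Γ ⧸ Subgroup.zpowers s) = e (v : Γ ⧸ Subgroup.zpowers s) :=
        (Prod.ext_iff.1 heq).2
      have := same_line hT (e.injective p2)
      rw [p1, sub_self, zpow_zero, mul_one] at this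
      exact huv.ne this.symm
    have huS : u⁻¹ * v ∈ S := (cay_adj hT.gen u v).1 huv
    have hvS : v⁻¹ * u ∈ S := (cay_adj hT.gen v u).1 huv.symm
    rw [SimpleGraph.fromRel_adj]
    refine ⟨hne, ?_⟩
    by_cases hl : (u : Γ ⧸ Subgroup.zpowers s) = v
    · have e1 := same_line hT hl
      have hm := hT.max _ huS
      have e3 : u⁻¹ * v = s ^ (pos h H v - pos h H u) := by
        conv_lhs => rw [e1]
        rw [inv_mul_cancel_left]
      rw [e3, h_zpow hT, abs_mul, Nat.abs_cast] at hm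
      have hd : |pos h H v - pos h H u| ≤ 1 := by
        have : |pos h H v - pos h H u| * (H : ℤ) ≤ 1 * H := by linarith
        exact le_of_mul_le_mul_right this hH
      have hd0 : pos h H v - pos h H u ≠ 0 := by
        intro h0
        rw [h0, zpow_zero, mul_one] at e1
        exact huv.ne e1.symm
      rw [abs_le] at hd
      have hcase : pos h H v = pos h H u + 1 ∨ pos h H u = pos h H v + 1 := by omega
      rcases hcase with hc1 | hc1
      · left
        left
        exact ⟨congrArg e hl.symm, hc1⟩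
      · right
        left
        exact ⟨congrArg e hl, hc1⟩
    · have hadj : (Ln S s).Adj (u : Γ ⧸ Subgroup.zpowers s) (v : Γ ⧸ Subgroup.zpowers s) := by
        unfold Ln
        rw [SimpleGraph.fromRel_adj]
        refine ⟨hl, Or.inl ⟨u, u⁻¹ * v, huS, rfl, ?_⟩⟩
        rw [mul_inv_cancel_left]
      rcases (he _ _).1 hadj with h3 | h3
      · left
        right
        exact ⟨h3, u, v, rfl, h3, rfl, rfl, huS⟩
      · right
        right
        exact ⟨h3, v, u, rfl, h3, rfl, rfl, hvS⟩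

end

end Pool.Agent.Helper31.NW
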